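import Pool.Agent.H48.M5.Stmts
import Pool.Agent.H87.SLO.Tup

/-!
# The row RWA of L1: RowA from RowOK
-/

set_option autoImplicit false

namespace Pool.M5.RWA

open Finset Real
open Pool.Agent.H49.Ent Pool.Agent.H32.Dense Pool.STK Pool.KAF Pool.KVA Pool.SLO

theorem law_self {Ω Ω' : Type} [Fintype Ω] [Fintype Ω'] {Q : Ω → ℝ} {P : Ω' → ℝ} {f : Ω → Ω'}
    (h : Marg Q P f) (ω : Ω') : law Q f ω = P ω := by
  classical
  rw [← h ω]
  unfold law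
  exact Finset.sum_congr rfl fun v _ => by split_ifs <;> rfl

theorem pr_empty {Ω : Type} [Fintype Ω] (p : Ω → ℝ) (E : Set Ω) (h : ∀ v, v ∉ E) :
    Pr p E = 0 := by
  classical
  rw [Pr_eq]
  exact Finset.sum_eq_zero fun v _ => if_neg (h v)

/-- The digits of a family of numbers as one number. -/
noncomputable def enc {N : ℕ} (x : Fin N → Fin 2) : Fin (2 ^ N) := finFunctionFinEquiv x

variable {k n : ℕ} {I : Type} [Fintype I] (b : Bas k I) (d : LDat k n I)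

omit [Fintype I] in
theorem Qr_tup : d.Qr = tup d.P d.L n := by
  funext v
  rw [tup_eq]
  unfold LDat.Qr
  split_ifs <;> rfl

/-- One more digit of a cell. -/
theorem floor_succ {s : ℕ} {e : ℤ} {x x' : ℝ}
    (h1 : ⌊(2 : ℝ) ^ ((s : ℤ) + e) * x⌋ = ⌊(2 : ℝ) ^ ((s : ℤ) + e) * x'⌋)
    (h2 : par ⌊(2 : ℝ) ^ (((s + 1 : ℕ) : ℤ) + e) * x⌋ =
      par ⌊(2 : ℝ) ^ (((s + 1 : ℕ) : ℤ) + e) * x'⌋) :
    ⌊(2 : ℝ) ^ (((s + 1 : ℕ) : ℤ) + e) * x⌋ = ⌊(2 : ℝ) ^ (((s + 1 : ℕ) : ℤ) + e) * x'⌋ := by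
  have e1 : ((s + 1 : ℕ) : ℤ) + e = ((s : ℤ) + e) + 1 := by push_cast; ring
  rw [e1] at h2 ⊢
  refine par_inj ?_ h2
  rw [fl_half, fl_half, h1]

theorem floor_pred {s : ℕ} {e : ℤ} {x x' : ℝ}
    (h : ⌊(2 : ℝ) ^ (((s + 1 : ℕ) : ℤ) + e) * x⌋ = ⌊(2 : ℝ) ^ (((s + 1 : ℕ) : ℤ) + e) * x'⌋) :
    ⌊(2 : ℝ) ^ ((s : ℤ) + e) * x⌋ = ⌊(2 : ℝ) ^ ((s : ℤ) + e) * x'⌋ := by
  have e1 : ((s + 1 : ℕ) : ℤ) + e = ((s : ℤ) + e) + 1 := by push_cast; ring
  rw [e1] at h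
  rw [← fl_half ((s : ℤ) + e) x, ← fl_half ((s : ℤ) + e) x', h]

theorem npow_zpow (s : ℕ) : (2 : ℝ) ^ s = (2 : ℝ) ^ ((s : ℤ) + 0) := by
  rw [add_zero, zpow_natCast]

/-- Digits of the cells. -/
noncomputable def dg (m : (Fin (n + 1) → d.Om) → ℤ) (s : ℕ) (v : Fin (n + 1) → d.Om) :
    Fin (2 ^ (k + n)) :=
  enc (Fin.append (fun j => par ⌊(2 : ℝ) ^ (((s + 1 : ℕ) : ℤ) + 0) * d.yR (d.L (v 0)) j⌋)
    (fun a => par ⌊(2 : ℝ) ^ (((s + 1 : ℕ) : ℤ) + m v) * d.cs b v a⌋))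

theorem GA_iff (m : (Fin (n + 1) → d.Om) → ℤ) (s : ℕ) (v v' : Fin (n + 1) → d.Om) :
    d.GA b m s v = d.GA b m s v' ↔ (∀ j, d.T (v j) = d.T (v' j)) ∧ m v = m v' ∧
      (∀ j, ⌊(2 : ℝ) ^ ((s : ℤ) + 0) * d.yR (d.L (v 0)) j⌋ =
        ⌊(2 : ℝ) ^ ((s : ℤ) + 0) * d.yR (d.L (v' 0)) j⌋) ∧
      ∀ a, ⌊(2 : ℝ) ^ ((s : ℤ) + m v) * d.cs b v a⌋ = ⌊(2 : ℝ) ^ ((s : ℤ) + m v') * d.cs b v' a⌋ := by
  unfold LDat.GA
  simp only [Prod.mk.injEq, npow_zpow]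
  constructor
  · rintro ⟨⟨h1, h2⟩, h3, h4⟩
    exact ⟨congrFun h1, h2, congrFun h3, congrFun h4⟩
  · rintro ⟨h1, h2, h3, h4⟩
    exact ⟨⟨funext h1, h2⟩, funext h3, funext h4⟩

theorem dg_iff (m : (Fin (n + 1) → d.Om) → ℤ) (s : ℕ) (v v' : Fin (n + 1) → d.Om) :
    dg b d m s v = dg b d m s v' ↔
      (∀ j, par ⌊(2 : ℝ) ^ (((s + 1 : ℕ) : ℤ) + 0) * d.yR (d.L (v 0)) j⌋ =
        par ⌊(2 : ℝ) ^ (((s + 1 : ℕ) : ℤ) + 0) * d.yR (d.L (v' 0)) j⌋) ∧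
      ∀ a, par ⌊(2 : ℝ) ^ (((s + 1 : ℕ) : ℤ) + m v) * d.cs b v a⌋ =
        par ⌊(2 : ℝ) ^ (((s + 1 : ℕ) : ℤ) + m v') * d.cs b v' a⌋ := by
  unfold dg enc
  rw [finFunctionFinEquiv.injective.eq_iff]
  constructor
  · intro h
    refine ⟨fun j => ?_, fun a => ?_⟩
    · have := congrFun h (Fin.castAdd n j)
      rwa [Fin.append_left, Fin.append_left] at this
    · have := congrFun h (Fin.natAdd k a)
      rwa [Fin.append_right, Fin.append_right] at this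
  · rintro ⟨h1, h2⟩
    congr 1
    · exact funext h1
    · exact funext h2

theorem GA_succ {m : (Fin (n + 1) → d.Om) → ℤ} {s : ℕ} {v v' : Fin (n + 1) → d.Om}
    (h : d.GA b m s v = d.GA b m s v') (h' : dg b d m s v = dg b d m s v') :
    d.GA b m (s + 1) v = d.GA b m (s + 1) v' := by
  rw [GA_iff] at h ⊢
  rw [dg_iff] at h'
  obtain ⟨h1, h2, h3, h4⟩ := h
  obtain ⟨h5, h6⟩ := h'
  refine ⟨h1, h2, fun j => floor_succ (h3 j) (h5 j), fun a => ?_⟩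
  have e1 := h4 a
  have e2 := h6 a
  rw [h2] at e1 e2 ⊢
  exact floor_succ e1 e2

theorem GA_pred {m : (Fin (n + 1) → d.Om) → ℤ} {s : ℕ} {v v' : Fin (n + 1) → d.Om}
    (h : d.GA b m (s + 1) v = d.GA b m (s + 1) v') :
    d.GA b m s v = d.GA b m s v' ∧ dg b d m s v = dg b d m s v' := by
  rw [GA_iff] at h
  rw [GA_iff, dg_iff]
  obtain ⟨h1, h2, h3, h4⟩ := h
  refine ⟨⟨h1, h2, fun j => floor_pred (h3 j), fun a => ?_⟩, fun j => by rw [h3 j],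
    fun a => by rw [h4 a]⟩
  have e1 := h4 a
  rw [h2] at e1 ⊢
  exact floor_pred e1

/-- The reference data are functions of the times and of the digits of the line. -/
theorem cs_eq {v v' : Fin (n + 1) → d.Om} (hT : ∀ j, d.T (v j) = d.T (v' j))
    (hy : d.y (d.L (v 0)) = d.y (d.L (v' 0))) (hc : d.c (d.L (v 0)) = d.c (d.L (v' 0))) :
    d.cs b v = d.cs b v' := by
  have e1 : d.yR (d.L (v 0)) = d.yR (d.L (v' 0)) := by
    unfold LDat.yR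
    rw [hy]
  have e2 : d.cR (d.L (v 0)) = d.cR (d.L (v' 0)) := by
    unfold LDat.cR
    rw [hc]
  have e3 : d.As v = d.As v' := by
    funext a i
    unfold LDat.As
    have : (fun j => d.T (v j)) = fun j => d.T (v' j) := funext hT
    simp only [hT]
  funext a
  unfold LDat.cs
  rw [e1, e2, e3]

theorem y₀_of_GA {m : (Fin (n + 1) → d.Om) → ℤ} {s r : ℕ} (hs : r ≤ s)
    {v v' : Fin (n + 1) → d.Om} (h : d.GA b m s v = d.GA b m s v') :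
    d.y₀ r (d.L (v 0)) = d.y₀ r (d.L (v' 0)) := by
  have key : ∀ t, r + t ≤ s → ∀ j, ⌊(2 : ℝ) ^ (((s - t : ℕ) : ℤ) + 0) * d.yR (d.L (v 0)) j⌋ =
      ⌊(2 : ℝ) ^ (((s - t : ℕ) : ℤ) + 0) * d.yR (d.L (v' 0)) j⌋ := by
    intro t
    induction t with
    | zero =>
      intro _ j
      exact ((GA_iff b d m s v v').1 h).2.2.1 j
    | succ t ih =>
      intro ht j
      have e1 := ih (by omega) j
      have e2 : s - t = (s - (t + 1)) + 1 := by omega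
      rw [e2] at e1
      exact floor_pred e1
  have h1 := key (s - r) (by omega)
  have e2 : s - (s - r) = r := by omega
  rw [e2] at h1
  funext j
  unfold LDat.y₀
  rw [npow_zpow, h1 j]

omit [Fintype I] in
/-- The law of the line of a pair. -/
theorem Qp_marg (hp : ∀ ω, 0 ≤ d.P ω) (i : ℕ) : Marg (d.Qp i) d.P (fun w => w.1) :=
  dbl_fst hp

omit [Fintype I] in
theorem Q4_law (hp : ∀ ω, 0 ≤ d.P ω) (i : ℕ) (z : d.Lam) :
    law d.Qr (fun v => d.L (v 0)) z = law (d.Qp i) (fun w => d.L w.1) z := by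
  rw [Qr_tup, tup_law hp, (Qp_marg d hp i).law d.L z]

omit [Fintype I] in
theorem Qp_isLaw (hp : IsLaw d.P) (i : ℕ) : IsLaw (d.Qp i) := by
  refine ⟨fun w => dbl_nonneg hp.nonneg w, ?_⟩
  rw [(Qp_marg d hp.nonneg i).sum]
  exact hp.sum_one

omit [Fintype I] in
theorem Qr_isLaw (hp : IsLaw d.P) : IsLaw d.Qr := by
  rw [Qr_tup]
  exact tup_isLaw hp d.L n

omit [Fintype I] in
theorem Q4_isLaw (hp : IsLaw d.P) (i : ℕ) : IsLaw (d.Q4 i) := by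
  refine ⟨fun w => glue_nonneg (Qr_isLaw d hp).nonneg (Qp_isLaw d hp i).nonneg w, ?_⟩
  unfold LDat.Q4
  rw [sum_glue (Qr_isLaw d hp).nonneg (Q4_law d hp.nonneg i)]
  exact (Qr_isLaw d hp).sum_one

omit [Fintype I] in
theorem Q4_fst (hp : IsLaw d.P) (i : ℕ) : Marg (d.Q4 i) d.Qr (fun u => u.1) :=
  marg_fst (Qr_isLaw d hp).nonneg (Q4_law d hp.nonneg i)

omit [Fintype I] in
theorem Q4_snd (hp : IsLaw d.P) (i : ℕ) : Marg (d.Q4 i) (d.Qp i) (fun u => u.2) :=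
  marg_snd (Qp_isLaw d hp i).nonneg (Q4_law d hp.nonneg i)

omit [Fintype I] in
theorem Q4_pos (hp : IsLaw d.P) {i : ℕ} {u : (Fin (n + 1) → d.Om) × (d.Om × d.Om)}
    (h : 0 < d.Q4 i u) : 0 < d.Qr u.1 ∧ 0 < d.Qp i u.2 ∧ d.L (u.1 0) = d.L u.2.1 ∧
      d.L u.2.2 = d.L u.2.1 := by
  obtain ⟨h1, h2, h3⟩ := (glue_pos_iff (Qr_isLaw d hp).nonneg (Qp_isLaw d hp i).nonneg u).1 h
  have h4 := dbl_eq (b := fun ω => (d.L ω, d.Ti i ω)) hp.nonneg h2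
  exact ⟨h1, h2, h3, (Prod.ext_iff.1 h4).1.symm⟩

omit [Fintype I] in
/-- The cost of all the times. -/
theorem Q4_mi (hp : IsLaw d.P) (i : ℕ) {a : ℝ} (ha : MI d.P d.T d.L (fun _ => ()) ≤ a) :
    MI (d.Q4 i) (fun u => d.L u.2.1) (fun u => ((fun j => d.T (u.1 j)), (d.T u.2.1, d.T u.2.2)))
      (fun _ => ()) ≤ (n + 3) * a := by
  have hp0 := hp.nonneg
  have ha' : MI d.P d.L d.T (fun _ => ()) ≤ a := by
    rw [Pool.OC.mi_comm _ _ _ hp0]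
    exact ha
  have h1 := cost_glue (Qr_isLaw d hp) (Qp_isLaw d hp i) (fun v => d.L (v 0)) (fun w => d.L w.1)
    (Q4_law d hp0 i) (fun v j => d.T (v j)) (fun w => (d.T w.1, d.T w.2))
  have h2 := tup_mi hp d.L d.T n
  rw [← Qr_tup] at h2
  have h3 : MI (d.Qp i) (fun w => d.L w.1) (fun w => (d.T w.1, d.T w.2)) (fun _ => ()) ≤ 2 * a :=
    Pool.OC.cost_pair hp d.L d.T (fun t => ⌊(2 : ℝ) ^ i * d.th t⌋) a ha'
  have h4 : MI (d.Q4 i) (fun u => d.L u.2.1)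
      (fun u => ((fun j => d.T (u.1 j)), (d.T u.2.1, d.T u.2.2))) (fun _ => ()) ≤
      MI (d.Q4 i) (fun u => d.L (u.1 0))
      (fun u => ((fun j => d.T (u.1 j)), (d.T u.2.1, d.T u.2.2))) (fun _ => ()) := by
    refine Pool.OC.mi_mono_left (Q4_isLaw d hp i).nonneg _ _ _ _ ?_
    intro u u' hu hu' h
    have e1 : d.L (u.1 0) = d.L (u'.1 0) := (Prod.ext_iff.1 h).1
    show d.L u.2.1 = d.L u'.2.1
    rw [← (Q4_pos d hp hu).2.2.1, ← (Q4_pos d hp hu').2.2.1, e1]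
  have h5 : MI (d.Q4 i) (fun u => d.L (u.1 0))
      (fun u => ((fun j => d.T (u.1 j)), (d.T u.2.1, d.T u.2.2))) (fun _ => ()) ≤
      MI d.Qr (fun v => d.L (v 0)) (fun v j => d.T (v j)) (fun _ => ()) +
        MI (d.Qp i) (fun w => d.L w.1) (fun w => (d.T w.1, d.T w.2)) (fun _ => ()) := h1
  have hn : (0 : ℝ) ≤ (n : ℝ) + 1 := by positivity
  have h6 := mul_le_mul_of_nonneg_left ha' hn
  linarith

end Pool.M5.RWA

namespace Pool.M5

open Finset Real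
open Pool.Agent.H49.Ent Pool.Agent.H32.Dense Pool.STK Pool.KAF Pool.KVA Pool.SLO
open RWA

theorem rwa_thm : RWAStmt := by
  classical
  intro k n I _ b d J m A j₀ ns k' k₁ e δ ι ε₀ c hOK hH1 hδ hm hHm hrow i hi q W hqW hclose
  have hp := hOK.law
  have hp0 := hp.nonneg
  have hQ := Q4_isLaw d hp i
  have hX : (0 : ℝ) ≤ d.X := Nat.cast_nonneg _
  have h := hrow ((Fin (n + 1) → d.Om) × (d.Om × d.Om)) (Fin (n + 1) → d.Tau)
    ((Fin (n + 1) → d.Tau) × (d.Tau × d.Tau)) ℤ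
    (fun _ => ((Fin (n + 1) → d.Tau) × ℤ) × (Fin k → ℤ) × (Fin n → ℤ)) (d.Q4 i)
    (fun u => u.2.1) (fun u => u.2.2) (fun u j => d.T (u.1 j))
    (fun u => ((fun j => d.T (u.1 j)), (d.T u.2.1, d.T u.2.2))) (fun u => m u.1)
    (fun s u => d.GA b m s u.1) (fun s u => dg b d m s u.1) q W (8 * ns) (d.X - 8 * ns) hQ
    ?_ ?_ ?_ ?_ ?_ ?_ ?_ ?_ ?_ ?_ ?_ ?_ ?_
  · refine le_trans (le_of_eq ?_) h
    refine Finset.sum_congr rfl fun s _ => ?_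
    rw [pr_dbl]
    unfold Ex
    refine Finset.sum_congr rfl fun u _ => ?_
    rcases (hQ.nonneg u).eq_or_lt with h0 | h0
    · rw [← h0, zero_mul, zero_mul]
    congr 1
    obtain ⟨hu1, hu2, hu3, hu4⟩ := Q4_pos d hp h0
    by_cases hu : u ∈ {u | u ∈ W ∧ 0 ≤ (s : ℤ) + q u ∧ ((s : ℤ) + q u).toNat ∈ J u.2.1}
    · rw [Set.indicator_of_mem hu]
      rw [← pr_cond_marg (Q4_fst d hp i) hQ.nonneg
        (fun u => ((fun j => d.T (u.1 j)), m u.1, d.GA b m s u.1)) (d.GA b m s) (w := u)]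
      · refine pr_congr (fun ω => cond_nonneg hQ.nonneg _ _ _) fun u' hu' => ?_
        obtain ⟨hpos, _⟩ := (cond_pos_iff hQ.nonneg _ _ _).1 hu'
        obtain ⟨hv1, hv2, hv3, hv4⟩ := Q4_pos d hp hpos
        have hu'' : u ∈ W ∧ 0 ≤ (s : ℤ) + q u ∧ ((s : ℤ) + q u).toNat ∈ J u.2.1 := hu
        constructor
        · intro hmem
          refine ⟨hu''.1, hu''.2.1, hu''.2.2, ?_⟩
          show (2 : ℝ) ^ (-((s : ℤ) + q u + k₁)) ≤
            |d.Z b (d.T u.2.1) (d.T u.2.2) (d.y (d.L u.2.1), d.c (d.L u.2.1)) -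
              d.Z b (d.T u.2.1) (d.T u.2.2) (d.y (d.L u'.2.1), d.c (d.L u'.2.1))|
          rw [← hu3, ← hv3]
          exact hmem
        · rintro ⟨-, -, -, hmem⟩
          have hmem' : (2 : ℝ) ^ (-((s : ℤ) + q u + k₁)) ≤
            |d.Z b (d.T u.2.1) (d.T u.2.2) (d.y (d.L u.2.1), d.c (d.L u.2.1)) -
              d.Z b (d.T u.2.1) (d.T u.2.2) (d.y (d.L u'.2.1), d.c (d.L u'.2.1))| := hmem
          rw [← hu3, ← hv3] at hmem'
          exact hmem'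
      · intro u' hu'
        constructor
        · intro h1
          exact (Prod.ext_iff.1 (Prod.ext_iff.1 h1).2).2
        · intro h1
          have h2 := (GA_iff b d m s _ _).1 h1
          simp only [Prod.mk.injEq]
          exact ⟨funext h2.1, h2.2.1, h1⟩
    · rw [Set.indicator_of_notMem hu]
      symm
      exact pr_empty _ _ fun v hv => hu ⟨hv.1, hv.2.1, hv.2.2.1⟩
  · intro ω
    exact law_self ((Q4_snd d hp i).comp (Qp_marg d hp0 i)) ω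
  · intro ω
    exact law_self ((Q4_snd d hp i).comp (dbl_snd hp0)) ω
  · intro u hu
    exact (Q4_pos d hp hu).2.2.2
  · intro u u' _ _ h1
    simp only [Prod.mk.injEq] at h1 ⊢
    exact ⟨h1.1, h1.2.1, h1.2.2⟩
  · have h1 := Q4_mi d hp i hH1.1
    have h2 := mul_le_mul_of_nonneg_right hδ hX
    have h3 : ((n : ℝ) + 3) * (ι * d.X) = (n + 3) * ι * d.X := by ring
    exact h1.trans (h3.trans_le h2)
  · intro u u' hu hu' h1
    have e1 : (fun j => d.T (u.1 j)) = fun j => d.T (u'.1 j) := (Prod.ext_iff.1 h1).1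
    have e2 : d.L u.2.1 = d.L u'.2.1 := (Prod.ext_iff.1 h1).2
    exact hm _ _ (congrFun e1) (by rw [(Q4_pos d hp hu).2.2.1, (Q4_pos d hp hu').2.2.1, e2])
  · refine (Pool.OC.ch_le_H hQ _ _).trans ?_
    rw [(Q4_fst d hp i).H m]
    exact hHm
  · intro s _ u u' hu hu' h1
    simp only [Prod.mk.injEq] at h1
    obtain ⟨e1, e2, e3⟩ := h1
    have e4 : (d.y (d.L u.2.1), d.c (d.L u.2.1)) = (d.y (d.L u'.2.1), d.c (d.L u'.2.1)) := e3
    simp only [Prod.mk.injEq] at e4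
    rw [← (Q4_pos d hp hu).2.2.1, ← (Q4_pos d hp hu').2.2.1] at e4
    have e5 := cs_eq b d (congrFun e1) e4.1 e4.2
    have e6 : d.yR (d.L (u.1 0)) = d.yR (d.L (u'.1 0)) := by
      unfold LDat.yR
      rw [e4.1]
    rw [GA_iff]
    exact ⟨congrFun e1, e2, fun j => by rw [e6], fun a => by rw [e5, e2]⟩
  · intro s _ u u' _ _ h1
    exact GA_succ b d (Prod.ext_iff.1 h1).1 (Prod.ext_iff.1 h1).2
  · intro s _ u u' _ _ h1
    obtain ⟨h2, h3⟩ := GA_pred b d (m := m) h1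
    exact Prod.ext h2 h3
  · intro s hs u u' hu hu' h1
    simp only [Prod.mk.injEq] at h1
    obtain ⟨⟨e1, e2, e3⟩, e4, e5⟩ := h1
    have h2 := hqW u u' hu hu' (congrFun e1) e2 e3 e4 (y₀_of_GA b d hs e5)
    exact Prod.ext h2.1 (propext h2.2)
  · intro s u u' hs hu hu' hW _ _ h1
    have h2 := hclose u u'.1 s hu (Q4_pos d hp hu').1 hW hs h1.symm
    have e1 := (Q4_pos d hp hu).2.2.1
    have e2 := (Q4_pos d hp hu').2.2.1
    show |d.Z b (d.T u.2.1) (d.T u.2.2) (d.y (d.L u.2.1), d.c (d.L u.2.1)) -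
      d.Z b (d.T u.2.1) (d.T u.2.2) (d.y (d.L u'.2.1), d.c (d.L u'.2.1))| ≤ _
    rw [← e1, ← e2]
    exact h2
  · show d.X - 8 * ns ≤ d.X
    omega

end Pool.M5
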